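import Mathlib
import Pool.Agent.H744R2.KZ.Props

open scoped ComplexOrder InnerProductSpace ComplexConjugate Topology
open Finset Filter

noncomputable section

namespace H744R2.KZ

open H759R2.Kad

universe u

namespace T_grpaux

variable {B : Type u} [CStarAlgebra B] {k : ℕ} (f : Fin k → Fin k → B)

/-- the complement of the support of the matrix units -/
def q : B := 1 - ∑ i, f i i

/-- signed permutation unitaries -/
def U (g : Equiv.Perm (Fin k) × (Fin k → ℤˣ)) : B :=
  ∑ i, (((g.2 i : ℤ) : ℂ)) • f (g.1 i) i + q f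

variable {f} (hf : MU f)
include hf

theorem f_q (a b : Fin k) : f a b * q f = 0 := by
  rw [q, mul_sub, mul_one, Finset.mul_sum, Finset.sum_eq_single b]
  · rw [hf.mul, if_pos rfl, sub_self]
  · intro i _ hi
    rw [hf.mul, if_neg (Ne.symm hi)]
  · intro h; exact absurd (Finset.mem_univ _) h

theorem q_f (a b : Fin k) : q f * f a b = 0 := by
  rw [q, sub_mul, one_mul, Finset.sum_mul, Finset.sum_eq_single a]
  · rw [hf.mul, if_pos rfl, sub_self]
  · intro i _ hi
    rw [hf.mul, if_neg hi]
  · intro h; exact absurd (Finset.mem_univ _) h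

theorem q_q : q f * q f = q f := by
  have h : (∑ i, f i i) * q f = 0 := by
    rw [Finset.sum_mul]
    exact Finset.sum_eq_zero fun i _ => f_q hf i i
  calc q f * q f = (1 - ∑ i, f i i) * q f := rfl
    _ = q f - (∑ i, f i i) * q f := by rw [sub_mul, one_mul]
    _ = q f := by rw [h, sub_zero]

theorem star_q : star (q f) = q f := by
  simp [q, star_sub, star_sum, hf.adj]

theorem U_mul (g h : Equiv.Perm (Fin k) × (Fin k → ℤˣ)) :
    U f g * U f h = U f (g.1 * h.1, fun i => g.2 (h.1 i) * h.2 i) := by
  simp only [U]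
  rw [add_mul, mul_add, mul_add, q_q hf]
  have h1 : (∑ i, (((g.2 i : ℤ) : ℂ)) • f (g.1 i) i) * q f = 0 := by
    rw [Finset.sum_mul]
    exact Finset.sum_eq_zero fun i _ => by rw [smul_mul_assoc, f_q hf, smul_zero]
  have h2 : q f * (∑ i, (((h.2 i : ℤ) : ℂ)) • f (h.1 i) i) = 0 := by
    rw [Finset.mul_sum]
    exact Finset.sum_eq_zero fun i _ => by rw [mul_smul_comm, q_f hf, smul_zero]
  rw [h1, h2, add_zero, zero_add]
  congr 1
  rw [Finset.mul_sum]
  refine Finset.sum_congr rfl fun l _ => ?_
  rw [Finset.sum_mul, Finset.sum_eq_single (h.1 l)]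
  · rw [smul_mul_smul_comm, hf.mul, if_pos rfl]
    simp
  · intro i _ hi
    rw [smul_mul_smul_comm, hf.mul, if_neg hi, smul_zero]
  · intro h; exact absurd (Finset.mem_univ _) h

theorem sq_unit (e : ℤˣ) : (((e : ℤ) : ℂ)) * (((e : ℤ) : ℂ)) = 1 := by
  rcases Int.units_eq_one_or e with h | h <;> simp [h]

theorem star_U (g : Equiv.Perm (Fin k) × (Fin k → ℤˣ)) :
    star (U f g) = ∑ i, (((g.2 i : ℤ) : ℂ)) • f i (g.1 i) + q f := by
  simp [U, star_add, star_sum, star_smul, hf.adj, star_q hf]

theorem star_mul_U (g : Equiv.Perm (Fin k) × (Fin k → ℤˣ)) :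
    star (U f g) * U f g = 1 := by
  rw [star_U hf, U, add_mul, mul_add, mul_add, q_q hf]
  have h1 : (∑ i, (((g.2 i : ℤ) : ℂ)) • f i (g.1 i)) * q f = 0 := by
    rw [Finset.sum_mul]
    exact Finset.sum_eq_zero fun i _ => by rw [smul_mul_assoc, f_q hf, smul_zero]
  have h2 : q f * (∑ i, (((g.2 i : ℤ) : ℂ)) • f (g.1 i) i) = 0 := by
    rw [Finset.mul_sum]
    exact Finset.sum_eq_zero fun i _ => by rw [mul_smul_comm, q_f hf, smul_zero]
  rw [h1, h2, add_zero, zero_add]
  have h3 : (∑ i, (((g.2 i : ℤ) : ℂ)) • f i (g.1 i)) * (∑ i, (((g.2 i : ℤ) : ℂ)) • f (g.1 i) i)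
      = ∑ i, f i i := by
    rw [Finset.mul_sum]
    refine Finset.sum_congr rfl fun l _ => ?_
    rw [Finset.sum_mul, Finset.sum_eq_single l]
    · rw [smul_mul_smul_comm, hf.mul, if_pos rfl, sq_unit hf, one_smul]
    · intro i _ hi
      rw [smul_mul_smul_comm, hf.mul, if_neg (fun h => hi (g.1.injective h)), smul_zero]
    · intro h; exact absurd (Finset.mem_univ _) h
  rw [h3, q]
  abel

theorem mul_star_U (g : Equiv.Perm (Fin k) × (Fin k → ℤˣ)) :
    U f g * star (U f g) = 1 := by
  rw [star_U hf, U, add_mul, mul_add, mul_add, q_q hf]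
  have h1 : (∑ i, (((g.2 i : ℤ) : ℂ)) • f (g.1 i) i) * q f = 0 := by
    rw [Finset.sum_mul]
    exact Finset.sum_eq_zero fun i _ => by rw [smul_mul_assoc, f_q hf, smul_zero]
  have h2 : q f * (∑ i, (((g.2 i : ℤ) : ℂ)) • f i (g.1 i)) = 0 := by
    rw [Finset.mul_sum]
    exact Finset.sum_eq_zero fun i _ => by rw [mul_smul_comm, q_f hf, smul_zero]
  rw [h1, h2, add_zero, zero_add]
  have h3 : (∑ i, (((g.2 i : ℤ) : ℂ)) • f (g.1 i) i) * (∑ i, (((g.2 i : ℤ) : ℂ)) • f i (g.1 i))
      = ∑ i, f i i := by
    rw [Finset.mul_sum]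
    rw [← Equiv.sum_comp g.1 (fun i => f i i)]
    refine Finset.sum_congr rfl fun l _ => ?_
    rw [Finset.sum_mul, Finset.sum_eq_single l]
    · rw [smul_mul_smul_comm, hf.mul, if_pos rfl, sq_unit hf, one_smul]
    · intro i _ hi
      rw [smul_mul_smul_comm, hf.mul, if_neg hi, smul_zero]
    · intro h; exact absurd (Finset.mem_univ _) h
  rw [h3, q]
  abel

omit hf in
theorem norm_one_le : ‖(1 : B)‖ ≤ 1 := by
  have h := CStarRing.norm_star_mul_self (x := (1 : B))
  rw [star_one, one_mul] at h
  nlinarith [norm_nonneg (1 : B)]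

theorem norm_U_le (g : Equiv.Perm (Fin k) × (Fin k → ℤˣ)) : ‖U f g‖ ≤ 1 := by
  have h := CStarRing.norm_star_mul_self (x := U f g)
  rw [star_mul_U hf] at h
  have h1 := norm_one_le (B := B)
  nlinarith [norm_nonneg (U f g)]

theorem f_eq (i j : Fin k) : f j i = (2 : ℂ)⁻¹ • (U f (Equiv.swap i j, 1) -
    U f (Equiv.swap i j, Function.update 1 i (-1))) := by
  have h : U f (Equiv.swap i j, 1) - U f (Equiv.swap i j, Function.update 1 i (-1)) =
      (2 : ℂ) • f j i := by
    simp only [U]
    rw [add_sub_add_right_eq_sub, ← Finset.sum_sub_distrib, Finset.sum_eq_single i]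
    · simp only [Equiv.swap_apply_left, Function.update_self, Pi.one_apply]
      rw [← sub_smul]
      norm_num
    · intro l _ hl
      rw [Function.update_of_ne hl]
      simp
    · intro h; exact absurd (Finset.mem_univ _) h
  rw [h, smul_smul]
  norm_num

end T_grpaux

open T_grpaux in
theorem prove_T_grp : T_grp.{u} := by
  intro B _ L _ _ _ π D K hD k f hf
  set G := Equiv.Perm (Fin k) × (Fin k → ℤˣ)
  have hπ : ∀ b : B, ‖π b‖ ≤ ‖b‖ := fun b => NonUnitalStarAlgHom.norm_apply_le π b
  set N : ℕ := Fintype.card G with hN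
  have hNpos : 0 < N := by
    rw [hN]
    exact Fintype.card_pos_iff.2 ⟨(1, 1)⟩
  obtain ⟨T, hT⟩ : ∃ T : L →L[ℂ] L, T = ((N : ℂ))⁻¹ • ∑ g : G, D (U f g) * π (star (U f g)) :=
    ⟨_, rfl⟩
  have hNC : (N : ℂ) ≠ 0 := by exact_mod_cast hNpos.ne'
  refine ⟨T, ?_, ?_⟩
  · rw [hT, norm_smul, norm_inv, Complex.norm_natCast]
    have h1 : ‖∑ g : G, D (U f g) * π (star (U f g))‖ ≤ ∑ g : G, K := by
      refine (norm_sum_le _ _).trans (Finset.sum_le_sum fun g _ => ?_)
      refine (norm_mul_le _ _).trans ?_
      have h2 := hD.bound (U f g)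
      have h3 := norm_U_le hf g
      have h4 : ‖π (star (U f g))‖ ≤ 1 := (hπ _).trans (by rw [norm_star]; exact h3)
      have h5 : ‖D (U f g)‖ ≤ K := h2.trans (by
        have := hD.nonneg
        nlinarith)
      have := hD.nonneg
      calc ‖D (U f g)‖ * ‖π (star (U f g))‖ ≤ K * 1 := by
            apply mul_le_mul h5 h4 (norm_nonneg _) this
        _ = K := mul_one _
    rw [Finset.sum_const, Finset.card_univ, nsmul_eq_mul] at h1
    have hN' : (0 : ℝ) < N := by exact_mod_cast hNpos
    calc ((N : ℝ))⁻¹ * ‖∑ g : G, D (U f g) * π (star (U f g))‖ ≤ ((N : ℝ))⁻¹ * (N * K) := by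
          apply mul_le_mul_of_nonneg_left h1
          positivity
      _ = K := by field_simp
  · have key : ∀ g : G, D (U f g) = T * π (U f g) - π (U f g) * T := by
      intro g
      have h1 : T = π (U f g) * T * π (star (U f g)) + D (U f g) * π (star (U f g)) := by
        have hbij : Function.Bijective
            (fun h : G => ((g.1 * h.1, fun i => g.2 (h.1 i) * h.2 i) : G)) := by
          refine (Finite.injective_iff_bijective).1 ?_
          intro a b hab
          have e1 : g.1 * a.1 = g.1 * b.1 := congrArg Prod.fst hab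
          have e2 : (fun i => g.2 (a.1 i) * a.2 i) = fun i => g.2 (b.1 i) * b.2 i :=
            congrArg Prod.snd hab
          have h1 : a.1 = b.1 := mul_left_cancel e1
          refine Prod.ext h1 ?_
          funext i
          have := congrFun e2 i
          simp only [h1] at this
          exact mul_left_cancel this
        have h2 : ∑ h : G, D (U f h) * π (star (U f h)) =
            ∑ h : G, D (U f g * U f h) * π (star (U f g * U f h)) := by
          rw [← Function.Bijective.sum_comp hbij (fun h => D (U f h) * π (star (U f h)))]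
          refine Finset.sum_congr rfl fun h _ => ?_
          rw [U_mul hf]
        have h3 : ∀ h : G, D (U f g * U f h) * π (star (U f g * U f h)) =
            π (U f g) * (D (U f h) * π (star (U f h))) * π (star (U f g)) +
              D (U f g) * π (star (U f g)) := by
          intro h
          rw [hD.leib, star_mul, map_mul, add_mul]
          have this : π (U f h) * π (star (U f h)) = 1 := by
            rw [← map_mul, mul_star_U hf, map_one]
          have e1 : π (U f g) * D (U f h) * (π (star (U f h)) * π (star (U f g))) =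
              π (U f g) * (D (U f h) * π (star (U f h))) * π (star (U f g)) := by
            simp only [mul_assoc]
          have e2 : D (U f g) * π (U f h) * (π (star (U f h)) * π (star (U f g))) =
              D (U f g) * π (star (U f g)) := by
            calc D (U f g) * π (U f h) * (π (star (U f h)) * π (star (U f g)))
                = D (U f g) * (π (U f h) * π (star (U f h))) * π (star (U f g)) := by
                  simp only [mul_assoc]
              _ = _ := by rw [this, mul_one]
          rw [e1, e2]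
        have h6 : T = ((N : ℂ))⁻¹ • (∑ h : G, (π (U f g) * (D (U f h) * π (star (U f h))) *
            π (star (U f g)) + D (U f g) * π (star (U f g)))) := by
          rw [hT, h2]
          congr 1
          exact Finset.sum_congr rfl fun h _ => h3 h
        rw [Finset.sum_add_distrib, Finset.sum_const, Finset.card_univ, ← hN, smul_add,
          ← Finset.sum_mul, ← Finset.mul_sum] at h6
        refine h6.trans ?_
        congr 1
        · rw [hT, mul_smul_comm, smul_mul_assoc]
        · rw [← Nat.cast_smul_eq_nsmul ℂ, smul_smul, inv_mul_cancel₀ hNC, one_smul]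
      have h4 : π (star (U f g)) * π (U f g) = 1 := by
        rw [← map_mul, star_mul_U hf, map_one]
      have h5 : T * π (U f g) = π (U f g) * T + D (U f g) := by
        calc T * π (U f g) = (π (U f g) * T * π (star (U f g)) + D (U f g) * π (star (U f g)))
              * π (U f g) := by rw [← h1]
          _ = π (U f g) * T * (π (star (U f g)) * π (U f g)) +
              D (U f g) * (π (star (U f g)) * π (U f g)) := by noncomm_ring
          _ = _ := by rw [h4, mul_one, mul_one]
      rw [h5]
      abel
    intro i j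
    rw [f_eq hf j i]
    simp only [map_smul, map_sub, key]
    rw [mul_smul_comm, smul_mul_assoc, ← smul_sub]
    congr 1
    rw [mul_sub, sub_mul]
    abel

end H744R2.KZ
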